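import Mathlib

/-!
Definitions for MP_ca4252_co: the Fibonacci word as the fixed point of `0 ↦ 01`, `1 ↦ 0`, and
lengths of monochromatic arithmetic progressions.
-/

namespace Pool.Agent.MP_ca4252_co

/-- The Fibonacci substitution on letters: `0 ↦ 01`, `1 ↦ 0`. -/
def subst (a : Fin 2) : List (Fin 2) := if a = 0 then [0, 1] else [0]

/-- The prefix `f_0 f_1 ... f_{n-1}` of length `n` of the infinite word `f`. -/
def pref (f : ℕ → Fin 2) (n : ℕ) : List (Fin 2) := (List.range n).map f

/-- `f` is a fixed point of the substitution: for every `n`, the image under the substitution of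
the prefix of length `n` of `f` is again a prefix of `f`. -/
def IsFixedPoint (f : ℕ → Fin 2) : Prop :=
  ∀ n, (pref f n).flatMap subst = pref f ((pref f n).flatMap subst).length

/-- The set of lengths `k` of monochromatic arithmetic progressions
`f i = f (i + d) = ⋯ = f (i + (k-1) d)` of difference `d` in the infinite word `f`. -/
def MonoLengths (f : ℕ → Fin 2) (d : ℕ) : Set ℕ :=
  {k | ∃ i, ∀ j < k, f (i + j * d) = f i}

end Pool.Agent.MP_ca4252_co
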