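import Mathlib
import Pool.Agent.MP_ca4252_co.Defs

/-! Proofs for MP_ca4252_co. -/

namespace Pool.Agent.MP_ca4252_co

/-! ### The rotation number `α = 1/τ` -/

noncomputable def al : ℝ := (√5 - 1) / 2

lemma sqrt5_sq : √5 * √5 = (5 : ℝ) := Real.mul_self_sqrt (by norm_num)

lemma al_sq : al * al = 1 - al := by
  unfold al; nlinarith [sqrt5_sq]

lemma sqrt5_eq : √5 = 2 * al + 1 := by unfold al; ring

lemma al_pos : 0 < al := by
  have h : (1 : ℝ) < √5 := by
    rw [Real.lt_sqrt (by norm_num)]; norm_num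
  unfold al; linarith

lemma al_lb : (0.61803398 : ℝ) < al := by
  have := al_pos
  nlinarith [al_sq]

lemma al_ub : al < (0.61803399 : ℝ) := by
  have := al_pos
  nlinarith [al_sq]

lemma al_eq_golden : al = Real.goldenRatio - 1 := by
  unfold al Real.goldenRatio; ring

lemma al_irrational : Irrational al := by
  rw [al_eq_golden]
  have := Real.goldenRatio_irrational
  simpa using this.sub_intCast 1

lemma target_eq : √5 / Real.goldenRatio = 2 - al := by
  have h1 : Real.goldenRatio = al + 1 := by rw [al_eq_golden]; ring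
  have h2 : al + 1 ≠ 0 := by have := al_pos; positivity
  rw [h1, div_eq_iff h2, sqrt5_eq]
  nlinarith [al_sq]

/-- no integer combination `n α = p` with `n ≠ 0` -/
lemma al_ne (n p : ℤ) (hn : n ≠ 0) : (n : ℝ) * al ≠ p := by
  intro h
  have := al_irrational
  apply this
  refine ⟨(p : ℚ) / n, ?_⟩
  have hn' : (n : ℝ) ≠ 0 := by exact_mod_cast hn
  push_cast
  rw [div_eq_iff hn', ← h]; ring

/-! ### The rotation coding -/

/-- The rotation coding of the Fibonacci word. -/
noncomputable def fw (i : ℕ) : Fin 2 :=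
  if 1 - al ≤ Int.fract (((i : ℝ) + 1) * al) then 0 else 1

lemma fw_eq_zero {i : ℕ} : fw i = 0 ↔ 1 - al ≤ Int.fract (((i : ℝ) + 1) * al) := by
  unfold fw
  split_ifs with h <;> simp [h]

lemma fw_eq_one {i : ℕ} : fw i = 1 ↔ Int.fract (((i : ℝ) + 1) * al) < 1 - al := by
  unfold fw
  split_ifs with h
  · refine ⟨fun h' => absurd h' (by decide), fun h' => absurd h (not_le.mpr h')⟩
  · exact ⟨fun _ => not_le.mp h, fun _ => rfl⟩

/-- position where the image of the `n`-th letter starts -/
noncomputable def pos (n : ℕ) : ℕ := n + ⌊((n : ℝ) + 1) * al⌋₊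

lemma floor_succ_zero {n : ℕ} (h : fw n = 0) :
    ⌊((n : ℝ) + 2) * al⌋₊ = ⌊((n : ℝ) + 1) * al⌋₊ + 1 := by
  rw [fw_eq_zero] at h
  have h0 := al_pos
  have h1 := al_ub
  have hx : 0 ≤ ((n : ℝ) + 1) * al := by positivity
  have hf : Int.fract (((n : ℝ) + 1) * al) = ((n : ℝ) + 1) * al - ⌊((n : ℝ) + 1) * al⌋₊ := by
    rw [Int.fract, natCast_floor_eq_intCast_floor hx]
  have hfl := Int.fract_lt_one (((n : ℝ) + 1) * al)
  rw [Nat.floor_eq_iff (by positivity)]
  push_cast
  constructor <;> nlinarith

lemma floor_succ_one {n : ℕ} (h : fw n = 1) :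
    ⌊((n : ℝ) + 2) * al⌋₊ = ⌊((n : ℝ) + 1) * al⌋₊ := by
  rw [fw_eq_one] at h
  have h0 := al_pos
  have h1 := al_ub
  have hx : 0 ≤ ((n : ℝ) + 1) * al := by positivity
  have hf : Int.fract (((n : ℝ) + 1) * al) = ((n : ℝ) + 1) * al - ⌊((n : ℝ) + 1) * al⌋₊ := by
    rw [Int.fract, natCast_floor_eq_intCast_floor hx]
  have hfl := Int.fract_nonneg (((n : ℝ) + 1) * al)
  rw [Nat.floor_eq_iff (by positivity)]
  constructor <;> nlinarith

lemma pos_zero : pos 0 = 0 := by
  have h1 := al_ub
  unfold pos
  simp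
  linarith

lemma pos_succ_zero {n : ℕ} (h : fw n = 0) : pos (n + 1) = pos n + 2 := by
  unfold pos
  push_cast
  have : ((n : ℝ) + 1 + 1) = (n : ℝ) + 2 := by ring
  rw [this, floor_succ_zero h]; ring

lemma pos_succ_one {n : ℕ} (h : fw n = 1) : pos (n + 1) = pos n + 1 := by
  unfold pos
  push_cast
  have : ((n : ℝ) + 1 + 1) = (n : ℝ) + 2 := by ring
  rw [this, floor_succ_one h]; ring

lemma fin2_cases (a : Fin 2) : a = 0 ∨ a = 1 := by
  fin_cases a <;> simp

lemma fract_pos_aux (n : ℕ) : ∃ e : ℝ, 0 < e ∧ e < 1 ∧ e = Int.fract (((n : ℝ) + 1) * al) ∧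
    ((pos n : ℝ) + 1) * al = (n + 1 : ℝ) - e * al := by
  have hx : 0 ≤ ((n : ℝ) + 1) * al := by have := al_pos; positivity
  refine ⟨Int.fract (((n : ℝ) + 1) * al), ?_, Int.fract_lt_one _, rfl, ?_⟩
  · rcases (Int.fract_nonneg (((n : ℝ) + 1) * al)).lt_or_eq with h | h
    · exact h
    · exfalso
      have h2 : ((n : ℝ) + 1) * al = ⌊((n : ℝ) + 1) * al⌋ := by
        have := Int.fract_add_floor (((n : ℝ) + 1) * al)
        linarith
      refine al_ne (n + 1) ⌊((n : ℝ) + 1) * al⌋ (by omega) ?_
      push_cast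
      exact h2
  · have hf : Int.fract (((n : ℝ) + 1) * al) = ((n : ℝ) + 1) * al - ⌊((n : ℝ) + 1) * al⌋₊ := by
      rw [Int.fract, natCast_floor_eq_intCast_floor hx]
    rw [hf]
    unfold pos
    push_cast
    linear_combination ((n : ℝ) + 1) * al_sq

lemma fract_eq_of {x : ℝ} {n : ℤ} {r : ℝ} (h : x = n + r) (h0 : 0 ≤ r) (h1 : r < 1) :
    Int.fract x = r := by
  rw [h, Int.fract_intCast_add, Int.fract_eq_self]
  exact ⟨h0, h1⟩

lemma fw_pos (n : ℕ) : fw (pos n) = 0 := by
  obtain ⟨e, he0, he1, -, h⟩ := fract_pos_aux n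
  have h0 := al_pos
  have h1 := al_ub
  rw [fw_eq_zero, fract_eq_of (n := (n : ℤ)) (r := 1 - e * al)]
  · nlinarith
  · rw [h]; push_cast; ring
  · nlinarith
  · nlinarith [mul_pos he0 h0]

lemma fw_pos_succ {n : ℕ} (hn : fw n = 0) : fw (pos n + 1) = 1 := by
  obtain ⟨e, he0, he1, he, h⟩ := fract_pos_aux n
  have h0 := al_pos
  have h1 := al_ub
  rw [fw_eq_zero, ← he] at hn
  have hne : 1 - al ≠ e := by
    intro h2
    rw [he] at h2
    have h3 := Int.fract_add_floor (((n : ℝ) + 1) * al)
    refine al_ne (n + 2) (⌊((n : ℝ) + 1) * al⌋ + 1) (by omega) ?_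
    push_cast
    linarith
  have hn' : 1 - al < e := lt_of_le_of_ne hn hne
  rw [fw_eq_one, fract_eq_of (n := (n : ℤ) + 1) (r := al * (1 - e))]
  · nlinarith [al_sq]
  · push_cast; linarith
  · have : 0 ≤ 1 - e := by linarith
    positivity
  · nlinarith

lemma pref_succ (f : ℕ → Fin 2) (n : ℕ) : pref f (n + 1) = pref f n ++ [f n] := by
  unfold pref
  rw [List.range_succ, List.map_append]; rfl

lemma length_pref (f : ℕ → Fin 2) (n : ℕ) : (pref f n).length = n := by
  simp [pref]

lemma fw_image (n : ℕ) : (pref fw n).flatMap subst = pref fw (pos n) := by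
  induction n with
  | zero => simp [pref, pos_zero]
  | succ n ih =>
    rw [pref_succ, List.flatMap_append, ih]
    rcases fin2_cases (fw n) with h | h
    · rw [pos_succ_zero h, show pos n + 2 = (pos n + 1) + 1 from rfl, pref_succ, pref_succ,
        fw_pos n, fw_pos_succ h, h]
      simp [subst]
    · rw [pos_succ_one h, pref_succ, fw_pos n, h]
      simp [subst]

lemma fw_isFixedPoint : IsFixedPoint fw := by
  intro n
  rw [fw_image, length_pref]

lemma pref_congr {f g : ℕ → Fin 2} {n : ℕ} (h : ∀ i < n, f i = g i) : pref f n = pref g n := by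
  unfold pref
  apply List.map_congr_left
  intro i hi
  exact h i (List.mem_range.mp hi)

lemma eq_of_pref {f g : ℕ → Fin 2} {n : ℕ} (h : pref f n = pref g n) : ∀ i < n, f i = g i := by
  intro i hi
  unfold pref at h
  exact List.map_inj_left.mp h i (List.mem_range.mpr hi)

lemma pos_gt {n : ℕ} (hn : 1 ≤ n) : n + 1 ≤ pos n := by
  unfold pos
  have h0 := al_lb
  have : 1 ≤ ⌊((n : ℝ) + 1) * al⌋₊ := by
    apply Nat.le_floor
    have : (1 : ℝ) ≤ n := by exact_mod_cast hn
    push_cast
    nlinarith
  omega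

lemma fixedPoint_unique {g : ℕ → Fin 2} (hg : IsFixedPoint g) : g = fw := by
  have key : ∀ n, ∀ i < n + 1, g i = fw i := by
    intro n
    induction n with
    | zero =>
      intro i hi
      obtain rfl : i = 0 := by omega
      have h1 := hg 1
      have h2 : fw 0 = 0 := by
        have := fw_pos 0
        rwa [pos_zero] at this
      have h3 : pref g 1 = [g 0] := rfl
      rw [h2]
      rcases fin2_cases (g 0) with h | h
      · exact h
      · rw [h3, h] at h1
        simp [subst, pref, h] at h1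
    | succ n ih =>
      have h1 : pref g (n + 1) = pref fw (n + 1) := pref_congr ih
      have h2 := hg (n + 1)
      rw [h1, fw_image, length_pref] at h2
      intro i hi
      exact (eq_of_pref h2 i (lt_of_lt_of_le hi (pos_gt (by omega)))).symm
  funext i
  exact key i i (by omega)

/-! ### The walk on the circle -/

/-- A walk with steps `s` modulo `1` inside an interval of length `L` with `|s| ≤ 1 - L`
never wraps around. -/
lemma no_jump {c L s : ℝ} (hs : |s| ≤ 1 - L) {y : ℕ → ℝ} {m : ℕ}
    (hy : ∀ j ≤ m, c ≤ y j ∧ y j < c + L)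
    (hstep : ∀ j < m, ∃ z : ℤ, y (j + 1) = y j + s + z) :
    ∀ j ≤ m, y j = y 0 + j * s := by
  intro j
  induction j with
  | zero => intro _; simp
  | succ j ih =>
    intro hj
    obtain ⟨z, hz⟩ := hstep j (by omega)
    have h1 := hy j (by omega)
    have h2 := hy (j + 1) hj
    have h3 := ih (by omega)
    have habs := abs_le.mp hs
    have hz1 : (z : ℝ) < 1 := by linarith
    have hz2 : (-1 : ℝ) < z := by linarith
    have hz1' : z < 1 := by exact_mod_cast hz1
    have hz2' : -1 < z := by exact_mod_cast hz2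
    obtain rfl : z = 0 := by omega
    rw [hz, h3]; push_cast; ring

/-- The norm form bound: if `s = d α - p` with `d ≥ 1` then `|s| (√5 d - s) ≥ 1`. -/
lemma norm_bound {d : ℕ} {p : ℤ} {s : ℝ} (hd : 1 ≤ d) (hs : (d : ℝ) * al = p + s)
    (hs1 : |s| ≤ 1) : 1 ≤ |s| * ((2 * al + 1) * d - s) := by
  have hd' : (1 : ℝ) ≤ d := by exact_mod_cast hd
  have h0 := al_lb
  have habs := abs_le.mp hs1
  have hpos : 0 < (2 * al + 1) * d - s := by nlinarith
  have hsne : s ≠ 0 := by
    intro h
    refine al_ne d p (by omega) ?_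
    rw [h, add_zero] at hs
    push_cast
    exact hs
  have hN : s * ((2 * al + 1) * d - s) = (((d : ℤ) * d - d * p - p * p : ℤ) : ℝ) := by
    have : s = d * al - p := by linarith
    rw [this]
    push_cast
    linear_combination ((d : ℝ) * d) * al_sq
  have hNe : ((d : ℤ) * d - d * p - p * p : ℤ) ≠ 0 := by
    intro h
    rw [h] at hN
    simp only [Int.cast_zero, mul_eq_zero] at hN
    rcases hN with h' | h'
    · exact hsne h'
    · exact absurd h' hpos.ne'
  have h1 : (1 : ℝ) ≤ |(((d : ℤ) * d - d * p - p * p : ℤ) : ℝ)| := by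
    have := Int.one_le_abs hNe
    exact_mod_cast this
  rw [← hN, abs_mul, abs_of_pos hpos] at h1
  exact h1

/-- The conclusion when the walk does not wrap around. -/
lemma concl_no_jump {d m : ℕ} {p : ℤ} {s : ℝ} (hd : 1 ≤ d) (hs : (d : ℝ) * al = p + s)
    (hs1 : |s| ≤ 1 / 2) (hm : (m : ℝ) * |s| < al) : (m : ℝ) < (2 - al) * d := by
  have hb := norm_bound hd hs (by linarith)
  have h0 := al_lb
  have h0' := al_ub
  have hd' : (1 : ℝ) ≤ d := by exact_mod_cast hd
  have hspos : 0 < |s| := by
    rcases (abs_nonneg s).lt_or_eq with h | h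
    · exact h
    · rw [← h] at hb; linarith
  rcases le_or_gt 0 s with hs0 | hs0
  · rw [abs_of_nonneg hs0] at *
    have h2 : (m : ℝ) * s < al * (s * ((2 * al + 1) * d - s)) := by nlinarith
    have h3 : (m : ℝ) < al * ((2 * al + 1) * d - s) := by
      by_contra hcon
      push Not at hcon
      nlinarith
    nlinarith [al_sq]
  · rw [abs_of_neg hs0] at *
    have h2 : (m : ℝ) * (-s) < al * ((-s) * ((2 * al + 1) * d - s)) := by nlinarith
    have h3 : (m : ℝ) < al * ((2 * al + 1) * d - s) := by
      by_contra hcon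
      push Not at hcon
      nlinarith
    have h4 : (m : ℝ) < 2 * d - p + 1 := by nlinarith [al_sq]
    have h5 : (m : ℤ) < 2 * d - p + 1 := by exact_mod_cast h4
    have h6 : (m : ℤ) ≤ 2 * d - p := by omega
    have h7 : (m : ℝ) ≤ 2 * d - p := by exact_mod_cast h6
    nlinarith

/-- A walk with steps `s ∈ (1 - α, 1/2]` modulo `1` inside `[1 - α, 1)`. -/
lemma jump_walk {s : ℝ} (hs0 : 1 - al < s) (hs1 : s ≤ 1 / 2) {y : ℕ → ℝ} {m : ℕ}
    (hy : ∀ j ≤ m, 1 - al ≤ y j ∧ y j < 1)
    (hstep : ∀ j < m, ∃ z : ℤ, y (j + 1) = y j + s + z) :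
    ∀ J : ℕ, 2 * J ≤ m → (2 * (J : ℝ) - 1) * (1 - 2 * s) < 2 * al - 1 := by
  have h0 := al_lb
  have h0' := al_ub
  intro J hJ
  rcases Nat.eq_zero_or_pos J with rfl | hJpos
  · simp only [Nat.cast_zero]; nlinarith
  -- steps of length two
  have hstep2 : ∀ j, j + 2 ≤ m → ∃ z : ℤ, y (j + 2) = y j + (2 * s - 1) + z := by
    intro j hj
    obtain ⟨z1, hz1⟩ := hstep j (by omega)
    obtain ⟨z2, hz2⟩ := hstep (j + 1) (by omega)
    refine ⟨z1 + z2 + 1, ?_⟩
    rw [show j + 2 = j + 1 + 1 from rfl, hz2, hz1]; push_cast; ring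
  have habs : |2 * s - 1| ≤ 1 - al := by rw [abs_le]; constructor <;> linarith
  have heven : ∀ j ≤ J, y (2 * j) = y 0 + j * (2 * s - 1) := by
    have := no_jump (c := 1 - al) (L := al) habs (y := fun j => y (2 * j)) (m := J)
      (fun j hj => by
        have := hy (2 * j) (by omega)
        constructor <;> linarith [this.1, this.2])
      (fun j hj => by
        obtain ⟨z, hz⟩ := hstep2 (2 * j) (by omega)
        exact ⟨z, by rw [show 2 * (j + 1) = 2 * j + 2 by ring, hz]⟩)
    simpa using this
  have hodd : ∀ j ≤ J - 1, y (2 * j + 1) = y 1 + j * (2 * s - 1) := by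
    have := no_jump (c := 1 - al) (L := al) habs (y := fun j => y (2 * j + 1)) (m := J - 1)
      (fun j hj => by
        have := hy (2 * j + 1) (by omega)
        constructor <;> linarith [this.1, this.2])
      (fun j hj => by
        obtain ⟨z, hz⟩ := hstep2 (2 * j + 1) (by omega)
        exact ⟨z, by rw [show 2 * (j + 1) + 1 = 2 * j + 1 + 2 by ring, hz]⟩)
    simpa using this
  obtain ⟨z, hz⟩ := hstep 0 (by omega)
  rw [zero_add] at hz
  have hy0 := hy 0 (by omega)
  have hy1 := hy 1 (by omega)
  have hz1 : (z : ℝ) < 1 := by linarith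
  have hz2 : (-2 : ℝ) < z := by linarith
  have hz1' : z < 1 := by exact_mod_cast hz1
  have hz2' : -2 < z := by exact_mod_cast hz2
  have hzc : z = 0 ∨ z = -1 := by omega
  rcases hzc with rfl | rfl
  · have h1 := heven J le_rfl
    have h2 := hy (2 * J) hJ
    push_cast at hz
    nlinarith
  · have h1 := hodd (J - 1) le_rfl
    have h2 := hy (2 * (J - 1) + 1) (by omega)
    have h3 : ((J - 1 : ℕ) : ℝ) = J - 1 := by
      rw [Nat.cast_sub hJpos]; simp
    rw [h3] at h1
    push_cast at hz
    nlinarith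

/-- The conclusion when the walk does wrap around. -/
lemma concl_jump {d m : ℕ} {p : ℤ} {s : ℝ} (hd : 1 ≤ d) (hs : (d : ℝ) * al = p + s)
    (hs1 : |s| ≤ 1 / 2) (hs2 : 1 - al < |s|)
    (hm : ∀ J : ℕ, 2 * J ≤ m → (2 * (J : ℝ) - 1) * (1 - 2 * |s|) < 2 * al - 1) :
    (m : ℝ) < (2 - al) * d := by
  have h0 := al_lb
  have h0' := al_ub
  have hd' : (1 : ℝ) ≤ d := by exact_mod_cast hd
  -- norm bound for `2 d`
  have hb : 1 ≤ (1 - 2 * |s|) * ((2 * al + 1) * (2 * d) + (1 - 2 * |s|)) := by
    rcases le_or_gt 0 s with hs0 | hs0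
    · rw [abs_of_nonneg hs0] at *
      have h := norm_bound (d := 2 * d) (p := 2 * p + 1) (s := 2 * s - 1) (by omega)
        (by push_cast; linarith) (by rw [abs_le]; constructor <;> linarith)
      rw [abs_of_nonpos (by linarith : 2 * s - 1 ≤ 0)] at h
      push_cast at h
      nlinarith
    · rw [abs_of_neg hs0] at *
      have h := norm_bound (d := 2 * d) (p := 2 * p - 1) (s := 2 * s + 1) (by omega)
        (by push_cast; linarith) (by rw [abs_le]; constructor <;> linarith)
      rw [abs_of_nonneg (by linarith : 0 ≤ 2 * s + 1)] at h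
      push_cast at h
      nlinarith
  rcases Nat.lt_or_ge d 7 with hd7 | hd7
  · -- small `d`
    have habs := abs_le.mp hs1
    have hcase : s ≤ -(1 - al) ∨ 1 - al < s := by
      rcases le_or_gt 0 s with hs0 | hs0
      · right; rwa [abs_of_nonneg hs0] at hs2
      · left; rw [abs_of_neg hs0] at hs2; linarith
    have hneg : ∀ (k q : ℤ), (d : ℤ) = k → ((k : ℝ) * al - q - 1 / 2 < 0) →
        (0 < (k : ℝ) * al - q + 1 / 2) → p = q := by
      intro k q hk h1 h2
      have hk' : (d : ℝ) = k := by exact_mod_cast hk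
      rw [hk'] at hs
      have h3 : (p : ℝ) < q + 1 := by linarith
      have h4 : (q : ℝ) - 1 < p := by linarith
      have h3' : p < q + 1 := by exact_mod_cast h3
      have h4' : q - 1 < p := by exact_mod_cast h4
      omega
    interval_cases d
    · exfalso
      have := hneg 1 1 rfl (by push_cast; linarith) (by push_cast; linarith)
      subst this
      push_cast at hs
      have : s = al - 1 := by linarith
      rw [this, abs_of_neg (by linarith)] at hs2
      linarith
    · exfalso
      have := hneg 2 1 rfl (by push_cast; linarith) (by push_cast; linarith)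
      subst this
      push_cast at hs
      have : s = 2 * al - 1 := by linarith
      rw [this, abs_of_pos (by linarith)] at hs2
      linarith
    · exfalso
      have := hneg 3 2 rfl (by push_cast; linarith) (by push_cast; linarith)
      subst this
      push_cast at hs
      have : s = 3 * al - 2 := by linarith
      rw [this, abs_of_neg (by linarith)] at hs2
      linarith
    · have := hneg 4 2 rfl (by push_cast; linarith) (by push_cast; linarith)
      subst this
      push_cast at hs
      have hs' : s = 4 * al - 2 := by linarith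
      rw [hs', abs_of_pos (by linarith)] at hm
      have hm5 : m ≤ 5 := by
        by_contra hcon
        push Not at hcon
        have := hm 3 (by omega)
        push_cast at this
        linarith
      have : (m : ℝ) ≤ 5 := by exact_mod_cast hm5
      push_cast
      linarith
    · exfalso
      have := hneg 5 3 rfl (by push_cast; linarith) (by push_cast; linarith)
      subst this
      push_cast at hs
      have : s = 5 * al - 3 := by linarith
      rw [this, abs_of_pos (by linarith)] at hs2
      linarith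
    · exfalso
      have := hneg 6 4 rfl (by push_cast; linarith) (by push_cast; linarith)
      subst this
      push_cast at hs
      have : s = 6 * al - 4 := by linarith
      rw [this, abs_of_neg (by linarith)] at hs2
      linarith
  · have hd7' : (7 : ℝ) ≤ d := by exact_mod_cast hd7
    have h1 := hm (m / 2) (by omega)
    set t : ℝ := 1 - 2 * |s| with ht
    have htub : t < 2 * al - 1 := by linarith
    have htpos : 0 < t := by
      have : 0 ≤ t := by linarith
      rcases this.lt_or_eq with h | h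
      · exact h
      · rw [← h] at hb; linarith
    have hfac : 0 < (2 * al + 1) * (2 * d) + t := by positivity
    have h2 : (2 * ((m / 2 : ℕ) : ℝ) - 1) * t < (2 * al - 1) * (t * ((2 * al + 1) * (2 * d) + t)) := by
      nlinarith
    have h3 : 2 * ((m / 2 : ℕ) : ℝ) - 1 < (2 * al - 1) * ((2 * al + 1) * (2 * d) + t) := by
      by_contra hcon
      push Not at hcon
      nlinarith
    have h4 : (m : ℝ) ≤ 2 * ((m / 2 : ℕ) : ℝ) + 1 := by
      have : m ≤ 2 * (m / 2) + 1 := by omega
      exact_mod_cast this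
    have h5 : (2 * al - 1) * ((2 * al + 1) * (2 * d) + t) = (6 - 8 * al) * d + (2 * al - 1) * t := by
      linear_combination (8 * (d : ℝ)) * al_sq
    have h6 : (2 * al - 1) * t < 0.06 := by nlinarith
    rw [h5] at h3
    have h7 : 2.06 ≤ (7 * al - 4) * d := by nlinarith
    nlinarith

lemma main_bound {d m i : ℕ} (hd : 1 ≤ d) (h : ∀ j ≤ m, fw (i + j * d) = fw i) :
    (m : ℝ) < (2 - al) * d := by
  have h0 := al_lb
  have h0' := al_ub
  set p : ℤ := round ((d : ℝ) * al) with hp
  set s : ℝ := (d : ℝ) * al - p with hsdef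
  have hs : (d : ℝ) * al = p + s := by rw [hsdef]; ring
  have hs1 : |s| ≤ 1 / 2 := abs_sub_round _
  set y : ℕ → ℝ := fun j => Int.fract ((((i + j * d : ℕ) : ℝ) + 1) * al) with hy
  have hstep : ∀ j, ∃ z : ℤ, y (j + 1) = y j + s + z := by
    intro j
    refine ⟨p - ⌊(((i + (j + 1) * d : ℕ) : ℝ) + 1) * al⌋ + ⌊(((i + j * d : ℕ) : ℝ) + 1) * al⌋, ?_⟩
    simp only [hy, Int.fract]
    push_cast
    linarith
  rcases fin2_cases (fw i) with hi | hi
  · -- letter `0`
    have hy0 : ∀ j ≤ m, 1 - al ≤ y j ∧ y j < 1 := by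
      intro j hj
      have := h j hj
      rw [hi, fw_eq_zero] at this
      exact ⟨this, Int.fract_lt_one _⟩
    rcases le_or_gt |s| (1 - al) with hs2 | hs2
    · have h1 := no_jump (c := 1 - al) (L := al) hs2 (m := m) (y := y)
        (fun j hj => ⟨(hy0 j hj).1, by linarith [(hy0 j hj).2]⟩) (fun j _ => hstep j) m le_rfl
      have h2 := hy0 0 (by omega)
      have h3 := hy0 m le_rfl
      refine concl_no_jump hd hs hs1 ?_
      have h4 : (m : ℝ) * |s| = |(m : ℝ) * s| := by
        rw [abs_mul, Nat.abs_cast]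
      rw [h4, abs_lt]
      constructor <;> linarith
    · refine concl_jump hd hs hs1 hs2 ?_
      rcases le_or_gt 0 s with hs0 | hs0
      · rw [abs_of_nonneg hs0] at *
        exact jump_walk hs2 hs1 hy0 (fun j _ => hstep j)
      · rw [abs_of_neg hs0] at *
        refine jump_walk (s := -s) hs2 hs1 (y := fun j => y (m - j)) (m := m)
          (fun j hj => hy0 (m - j) (by omega)) (fun j hj => ?_)
        obtain ⟨z, hz⟩ := hstep (m - (j + 1))
        refine ⟨-z, ?_⟩
        have : m - (j + 1) + 1 = m - j := by omega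
        rw [this] at hz
        simp only [hz]
        push_cast
        ring
  · -- letter `1`
    have hy0 : ∀ j ≤ m, 0 ≤ y j ∧ y j < 1 - al := by
      intro j hj
      have := h j hj
      rw [hi, fw_eq_one] at this
      exact ⟨Int.fract_nonneg _, this⟩
    have h1 := no_jump (c := 0) (L := 1 - al) (s := s) (by linarith) (m := m) (y := y)
        (fun j hj => ⟨(hy0 j hj).1, by linarith [(hy0 j hj).2]⟩) (fun j _ => hstep j) m le_rfl
    have h2 := hy0 0 (by omega)
    have h3 := hy0 m le_rfl
    refine concl_no_jump hd hs hs1 ?_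
    have h4 : (m : ℝ) * |s| = |(m : ℝ) * s| := by
      rw [abs_mul, Nat.abs_cast]
    rw [h4, abs_lt]
    constructor <;> linarith

end Pool.Agent.MP_ca4252_co
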